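import Mathlib

set_option autoImplicit false
open MeasureTheory Set Filter Topology
open scoped Pointwise

namespace Pool.Agent.Results.MP_0f2923_nt.BaseFortyNine

/-- the digit set -/
def A : Finset ℤ := {0, 1, 2, 3, 4, 8, 12, 16, 20, 24}

/-- the digits of `2a - a'` -/
def B : Finset ℤ := (A ×ˢ A).image fun p => 2 * p.1 - p.2

lemma B_card : B.card = 48 := by decide +kernel

lemma A_diff : ∀ d ∈ Finset.Icc (-24 : ℤ) 24, ∃ a ∈ A, ∃ a' ∈ A, d = a - a' := by decide +kernel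

lemma A_bound : ∀ a ∈ A, 0 ≤ a ∧ a ≤ 24 := by decide +kernel

lemma B_bound : ∀ b ∈ B, -24 ≤ b ∧ b ≤ 48 := by decide +kernel

/-- the value of a digit sequence in base `49` -/
noncomputable def val (b : ℕ → ℤ) : ℝ := ∑' i, (b i : ℝ) * (1 / 49 : ℝ) ^ (i + 1)

lemma summable_val {b : ℕ → ℤ} (hb : ∀ i, |(b i : ℝ)| ≤ 48) :
    Summable fun i => (b i : ℝ) * (1 / 49 : ℝ) ^ (i + 1) := by
  have h1 : Summable fun i : ℕ => 48 * ((1 / 49 : ℝ) ^ i * (1 / 49)) :=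
    ((summable_geometric_of_lt_one (by norm_num) (by norm_num)).mul_right _).mul_left _
  refine Summable.of_norm_bounded h1 fun i => ?_
  rw [norm_mul, Real.norm_eq_abs, norm_pow, pow_succ]
  have h2 : ‖(1 / 49 : ℝ)‖ = 1 / 49 := by rw [Real.norm_eq_abs]; norm_num
  rw [h2]
  exact mul_le_mul_of_nonneg_right (hb i) (by positivity)

lemma val_eq {b : ℕ → ℤ} (hb : ∀ i, |(b i : ℝ)| ≤ 48) :
    49 * val b = b 0 + val (fun i => b (i + 1)) := by
  have h := summable_val hb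
  unfold val
  rw [h.tsum_eq_zero_add, mul_add, ← tsum_mul_left]
  congr 1
  · norm_num
    ring
  · refine tsum_congr fun i => ?_
    rw [pow_succ (1 / 49 : ℝ) (i + 1)]; ring

lemma val_bound {b : ℕ → ℤ} (hb : ∀ i, |(b i : ℝ)| ≤ 48) : |val b| ≤ 1 := by
  have h1 : HasSum (fun i : ℕ => 48 * ((1 / 49 : ℝ) ^ i * (1 / 49))) 1 := by
    have := ((hasSum_geometric_of_lt_one (r := (1 / 49 : ℝ)) (by norm_num) (by norm_num)).mul_right
      (1 / 49)).mul_left 48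
    have e : (48 : ℝ) * ((1 - 1 / 49)⁻¹ * (1 / 49)) = 1 := by norm_num
    rwa [e] at this
  have h2 := summable_val hb
  have h3 : ∀ i, ‖(b i : ℝ) * (1 / 49 : ℝ) ^ (i + 1)‖ ≤ 48 * ((1 / 49 : ℝ) ^ i * (1 / 49)) := by
    intro i
    rw [norm_mul, Real.norm_eq_abs, norm_pow, pow_succ]
    have h2 : ‖(1 / 49 : ℝ)‖ = 1 / 49 := by rw [Real.norm_eq_abs]; norm_num
    rw [h2]
    exact mul_le_mul_of_nonneg_right (hb i) (by positivity)
  have h4 := tsum_of_norm_bounded h1 h3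
  rwa [Real.norm_eq_abs] at h4

/-- the set of all values with digits in `B` -/
def T : Set ℝ := {x | ∃ b : ℕ → ℤ, (∀ i, b i ∈ B) ∧ x = val b}

lemma abs_of_B {b : ℤ} (hb : b ∈ B) : |(b : ℝ)| ≤ 48 := by
  obtain ⟨h1, h2⟩ := B_bound b hb
  rw [abs_le]
  constructor
  · have : (-24 : ℝ) ≤ b := by exact_mod_cast h1
    linarith
  · exact_mod_cast h2

lemma T_volume : volume T = 0 := by
  have hsub : T ⊆ ⋃ b ∈ B, ((fun x : ℝ => 49 * x) ⁻¹' ((fun y : ℝ => y + (-(b : ℝ))) ⁻¹' T)) := by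
    rintro x ⟨b, hb, rfl⟩
    rw [mem_iUnion₂]
    refine ⟨b 0, hb 0, ?_⟩
    show 49 * val b + (-(b 0 : ℝ)) ∈ T
    rw [val_eq (fun i => abs_of_B (hb i))]
    exact ⟨fun i => b (i + 1), fun i => hb _, by ring⟩
  have hfin : volume T ≠ ⊤ := by
    have h1 : T ⊆ Icc (-1) 1 := by
      rintro x ⟨b, hb, rfl⟩
      rw [mem_Icc, ← abs_le]
      exact val_bound fun i => abs_of_B (hb i)
    exact ((measure_mono h1).trans_lt measure_Icc_lt_top).ne
  have hle : volume T ≤ ∑ b ∈ B, ENNReal.ofReal (1 / 49) * volume T := by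
    refine (measure_mono hsub).trans ((measure_biUnion_finset_le _ _).trans ?_)
    refine Finset.sum_le_sum fun b _ => ?_
    rw [Real.volume_preimage_mul_left (by norm_num : (49 : ℝ) ≠ 0), measure_preimage_add_right]
    have : |(49 : ℝ)⁻¹| = 1 / 49 := by rw [abs_of_pos (by norm_num)]; norm_num
    rw [this]
  rw [Finset.sum_const, B_card, nsmul_eq_mul, ← mul_assoc] at hle
  have hle' : (volume T).toReal ≤ 48 * (1 / 49) * (volume T).toReal := by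
    have h2 := ENNReal.toReal_mono (by
      apply ENNReal.mul_ne_top _ hfin
      exact ENNReal.mul_ne_top (by simp) ENNReal.ofReal_ne_top) hle
    rw [ENNReal.toReal_mul, ENNReal.toReal_mul, ENNReal.toReal_ofReal (by norm_num)] at h2
    simpa using h2
  have h0 : 0 ≤ (volume T).toReal := ENNReal.toReal_nonneg
  have h1 : (volume T).toReal = 0 := by linarith
  rcases (ENNReal.toReal_eq_zero_iff _).1 h1 with h | h
  · exact h
  · exact absurd h hfin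

/-- the Cantor set of values with digits in `A` -/
def C : Set ℝ := {x | ∃ a : ℕ → ℤ, (∀ i, a i ∈ A) ∧ x = val a}

lemma abs_of_A {a : ℤ} (ha : a ∈ A) : |(a : ℝ)| ≤ 48 := by
  obtain ⟨h1, h2⟩ := A_bound a ha
  rw [abs_le]
  constructor
  · have : (0 : ℝ) ≤ a := by exact_mod_cast h1
    linarith
  · have : (a : ℝ) ≤ 24 := by exact_mod_cast h2
    linarith

lemma C_nonneg {x : ℝ} (hx : x ∈ C) : 0 ≤ x := by
  obtain ⟨a, ha, rfl⟩ := hx
  refine tsum_nonneg fun i => mul_nonneg ?_ (by positivity)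
  exact_mod_cast (A_bound _ (ha i)).1

lemma two_sub_mem {x y : ℝ} (hx : x ∈ C) (hy : y ∈ C) : 2 * x - y ∈ T := by
  obtain ⟨a, ha, rfl⟩ := hx
  obtain ⟨b, hb, rfl⟩ := hy
  refine ⟨fun i => 2 * a i - b i, fun i => ?_, ?_⟩
  · exact Finset.mem_image.2 ⟨(a i, b i), Finset.mem_product.2 ⟨ha i, hb i⟩, rfl⟩
  · unfold val
    rw [← tsum_mul_left, ← ((summable_val fun i => abs_of_A (ha i)).mul_left 2).tsum_sub
      (summable_val fun i => abs_of_A (hb i))]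
    refine tsum_congr fun i => ?_
    push_cast; ring

/-- one step of the balanced expansion -/
lemma step (x : ℝ) (hx : |x| ≤ 1 / 2) : ∃ a ∈ A, ∃ a' ∈ A, |49 * x - ((a - a' : ℤ) : ℝ)| ≤ 1 / 2 := by
  rw [abs_le] at hx
  have key : ∃ d ∈ Finset.Icc (-24 : ℤ) 24, |49 * x - (d : ℝ)| ≤ 1 / 2 := by
    have h1 := Int.floor_le (49 * x + 1 / 2)
    have h2 := Int.lt_floor_add_one (49 * x + 1 / 2)
    have h3 : (-25 : ℤ) < ⌊49 * x + 1 / 2⌋ := by
      have : (-25 : ℝ) < ⌊49 * x + 1 / 2⌋ := by linarith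
      exact_mod_cast this
    have h4 : ⌊49 * x + 1 / 2⌋ ≤ (25 : ℤ) := by
      have : (⌊49 * x + 1 / 2⌋ : ℝ) ≤ 25 := by linarith
      exact_mod_cast this
    rcases h4.eq_or_lt with h5 | h5
    · refine ⟨24, by decide, ?_⟩
      rw [h5] at h1
      push_cast at h1 ⊢
      rw [abs_le]; constructor <;> linarith
    · refine ⟨⌊49 * x + 1 / 2⌋, Finset.mem_Icc.2 ⟨by omega, by omega⟩, ?_⟩
      rw [abs_le]; constructor <;> linarith
  obtain ⟨d, hd, hxd⟩ := key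
  obtain ⟨a, ha, a', ha', rfl⟩ := A_diff d hd
  exact ⟨a, ha, a', ha', hxd⟩

lemma diff_surj (x : ℝ) (hx : |x| ≤ 1 / 2) : ∃ c ∈ C, ∃ c' ∈ C, x = c - c' := by
  have hstep : ∀ y : {y : ℝ // |y| ≤ 1 / 2}, ∃ (p : ℤ × ℤ), p.1 ∈ A ∧ p.2 ∈ A ∧
      |49 * (y : ℝ) - ((p.1 - p.2 : ℤ) : ℝ)| ≤ 1 / 2 := by
    intro y
    obtain ⟨a, ha, a', ha', h⟩ := step y.1 y.2
    exact ⟨(a, a'), ha, ha', h⟩
  choose p hp1 hp2 hp3 using hstep
  obtain ⟨y, hy0, hys⟩ : ∃ y : ℕ → {y : ℝ // |y| ≤ 1 / 2}, y 0 = ⟨x, hx⟩ ∧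
      ∀ n, y (n + 1) = ⟨49 * (y n : ℝ) - (((p (y n)).1 - (p (y n)).2 : ℤ) : ℝ), hp3 (y n)⟩ :=
    ⟨fun n => Nat.rec ⟨x, hx⟩
      (fun _ y => ⟨49 * (y : ℝ) - (((p y).1 - (p y).2 : ℤ) : ℝ), hp3 y⟩) n, rfl, fun _ => rfl⟩
  set a : ℕ → ℤ := fun n => (p (y n)).1 with ha
  set a' : ℕ → ℤ := fun n => (p (y n)).2 with ha'
  have haA : ∀ n, a n ∈ A := fun n => hp1 _
  have haA' : ∀ n, a' n ∈ A := fun n => hp2 _
  have hrec : ∀ n, ((y (n + 1) : {y : ℝ // |y| ≤ 1 / 2}) : ℝ) = 49 * (y n : ℝ) - (a n - a' n) := by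
    intro n; rw [hys n]; push_cast; rfl
  have hpart : ∀ n, x = ∑ i ∈ Finset.range n, ((a i : ℝ) * (1 / 49 : ℝ) ^ (i + 1)
      - (a' i : ℝ) * (1 / 49 : ℝ) ^ (i + 1)) + (1 / 49 : ℝ) ^ n * (y n : ℝ) := by
    intro n
    induction n with
    | zero => simp [hy0]
    | succ n ih =>
      rw [Finset.sum_range_succ, hrec n, pow_succ]
      rw [ih] 
      ring
  have hs := (summable_val fun i => abs_of_A (haA i)).sub (summable_val fun i => abs_of_A (haA' i))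
  have hlim1 := hs.hasSum.tendsto_sum_nat
  have hlim2 : Tendsto (fun n : ℕ => (1 / 49 : ℝ) ^ n * (y n : ℝ)) atTop (𝓝 0) := by
    apply squeeze_zero_norm (a := fun n : ℕ => (1 / 49 : ℝ) ^ n * 1)
    · intro n
      rw [norm_mul, norm_pow]
      have h1 : ‖(1 / 49 : ℝ)‖ = 1 / 49 := by rw [Real.norm_eq_abs]; norm_num
      rw [h1, Real.norm_eq_abs]
      apply mul_le_mul_of_nonneg_left _ (by positivity)
      linarith [(y n).2]
    · simpa using tendsto_pow_atTop_nhds_zero_of_lt_one (r := (1 / 49 : ℝ)) (by norm_num) (by norm_num)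
  have hlim3 := hlim1.add hlim2
  have hx' : x = ∑' i, ((a i : ℝ) * (1 / 49 : ℝ) ^ (i + 1) - (a' i : ℝ) * (1 / 49 : ℝ) ^ (i + 1)) := by
    have h1 : Tendsto (fun _ : ℕ => x) atTop (𝓝 x) := tendsto_const_nhds
    have h2 := h1.congr hpart
    have := tendsto_nhds_unique h2 hlim3
    simpa using this
  refine ⟨val a, ⟨a, haA, rfl⟩, val a', ⟨a', haA', rfl⟩, ?_⟩
  rw [hx']
  exact (summable_val fun i => abs_of_A (haA i)).tsum_sub (summable_val fun i => abs_of_A (haA' i))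

/-- **Full answer to Q1: yes.** There is a set `E` of positive reals with `E - E = ℝ` such that
`{2e₁ - e₂ : e₁, e₂ ∈ E}` has Lebesgue measure zero. -/
theorem result : ∃ E : Set ℝ, E ⊆ Ioi 0 ∧ E - E = univ ∧
    volume (image2 (fun e₁ e₂ : ℝ => 2 * e₁ - e₂) E E) = 0 := by
  refine ⟨{x | ∃ c ∈ C, ∃ n : ℕ, x = c + (n + 1)}, ?_, ?_, ?_⟩
  · rintro x ⟨c, hc, n, rfl⟩
    have := C_nonneg hc
    show 0 < c + (n + 1)
    positivity
  · rw [eq_univ_iff_forall]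
    intro r
    have hr : |r - round r| ≤ 1 / 2 := abs_sub_round r
    obtain ⟨c, hc, c', hc', h⟩ := diff_surj _ hr
    rw [Set.mem_sub]
    rcases le_total 0 (round r) with h0 | h0
    · obtain ⟨n, hn⟩ := Int.eq_ofNat_of_zero_le h0
      refine ⟨c + ((n : ℕ) + 1), ⟨c, hc, n, rfl⟩, c' + ((0 : ℕ) + 1), ⟨c', hc', 0, rfl⟩, ?_⟩
      have h2 : ((round r : ℤ) : ℝ) = n := by rw [hn]; simp
      rw [h2] at h
      push_cast
      linarith
    · obtain ⟨n, hn⟩ := Int.eq_ofNat_of_zero_le (neg_nonneg.2 h0)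
      refine ⟨c + ((0 : ℕ) + 1), ⟨c, hc, 0, rfl⟩, c' + ((n : ℕ) + 1), ⟨c', hc', n, rfl⟩, ?_⟩
      have h2 : ((round r : ℤ) : ℝ) = -n := by
        have : round r = -(n : ℤ) := by omega
        rw [this]; push_cast; rfl
      rw [h2] at h
      push_cast
      linarith
  · have hsub : image2 (fun e₁ e₂ : ℝ => 2 * e₁ - e₂) {x | ∃ c ∈ C, ∃ n : ℕ, x = c + (n + 1)}
        {x | ∃ c ∈ C, ∃ n : ℕ, x = c + (n + 1)} ⊆ ⋃ k : ℤ, ((fun y : ℝ => y + (-(k : ℝ))) ⁻¹' T) := by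
      rintro x ⟨e₁, ⟨c, hc, n, rfl⟩, e₂, ⟨c', hc', n', rfl⟩, rfl⟩
      rw [mem_iUnion]
      refine ⟨2 * (n + 1) - (n' + 1), ?_⟩
      show 2 * (c + (n + 1)) - (c' + (n' + 1)) + (-(((2 * (n + 1) - (n' + 1) : ℤ)) : ℝ)) ∈ T
      have : 2 * (c + ((n : ℝ) + 1)) - (c' + (n' + 1)) + (-(((2 * (n + 1) - (n' + 1) : ℤ)) : ℝ))
          = 2 * c - c' := by push_cast; ring
      rw [this]
      exact two_sub_mem hc hc'
    refine measure_mono_null hsub ?_
    rw [measure_iUnion_null_iff]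
    intro k
    rw [measure_preimage_add_right]
    exact T_volume

end Pool.Agent.Results.MP_0f2923_nt.BaseFortyNine
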